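import Mathlib

namespace Pool.Agent.Results.MP_157dc7_co.Cex

open Classical

/-- complement of the arrangement -/
abbrev Compl {n l : ℕ} (α : Fin n → (Fin l → ℝ) →ₗ[ℝ] ℝ) := {p : Fin l → ℝ // ∀ i, α i p ≠ 0}

/-- chambers -/
abbrev Ch {n l : ℕ} (α : Fin n → (Fin l → ℝ) →ₗ[ℝ] ℝ) := ConnectedComponents (Compl α)

/-- Heaviside function -/
noncomputable def Heav {n l : ℕ} (α : Fin n → (Fin l → ℝ) →ₗ[ℝ] ℝ) (R : Type) [CommRing R]
    (i : Fin n) : Ch α → R :=
  fun C => if ∀ p : Compl α, ConnectedComponents.mk p = C → 0 < α i p.1 then 1 else 0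

/-- degree filtration -/
noncomputable def Fil {n l : ℕ} (α : Fin n → (Fin l → ℝ) →ₗ[ℝ] ℝ) (R : Type) [CommRing R]
    (k : ℕ) : Submodule R (Ch α → R) :=
  Submodule.span R {f | ∃ w : List (Fin n), w.length ≤ k ∧ f = (w.map (Heav α R)).prod}

/-- covectors -/
def Cov {n l : ℕ} (α : Fin n → (Fin l → ℝ) →ₗ[ℝ] ℝ) : Set (Fin n → SignType) :=
  Set.range fun p : Fin l → ℝ => fun i => SignType.sign (α i p)

section general
variable {n l : ℕ} (α : Fin n → (Fin l → ℝ) →ₗ[ℝ] ℝ)

noncomputable def sv (p : Compl α) : Fin n → Bool := fun i => decide (0 < α i p.1)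

lemma sv_cont : Continuous (sv α) := by
  refine continuous_pi fun i => ?_
  have hc : Continuous fun p : Compl α => α i p.1 :=
    (α i).continuous_of_finiteDimensional.comp continuous_subtype_val
  refine (continuous_bool_rng true).2 ?_
  have e1 : (fun p : Compl α => sv α p i) ⁻¹' {true} = {p | 0 < α i p.1} := by
    ext p; simp [sv]
  have e2 : {p : Compl α | 0 < α i p.1} = {p | 0 ≤ α i p.1} := by
    ext p
    simp only [Set.mem_ofPred_eq]
    exact ⟨fun h => le_of_lt h, fun h => lt_of_le_of_ne h (p.2 i).symm⟩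
  rw [e1]
  exact ⟨by rw [e2]; exact isClosed_le continuous_const hc, isOpen_lt continuous_const hc⟩

noncomputable def sg : Ch α → (Fin n → Bool) := (sv_cont α).connectedComponentsLift

lemma sg_mk (p : Compl α) : sg α (ConnectedComponents.mk p) = sv α p :=
  (sv_cont α).connectedComponentsLift_apply_coe p

lemma sg_inj : Function.Injective (sg α) := by
  intro C D h
  obtain ⟨p, rfl⟩ := ConnectedComponents.surjective_coe C
  obtain ⟨q, rfl⟩ := ConnectedComponents.surjective_coe D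
  rw [sg_mk, sg_mk] at h
  rw [ConnectedComponents.coe_eq_coe']
  have hs : ∀ i, (0 < α i p.1 ↔ 0 < α i q.1) := fun i => by
    have := congrFun h i
    simpa [sv] using this
  have hseg : ∀ t : ℝ, t ∈ Set.Icc (0:ℝ) 1 → ∀ i, α i ((1 - t) • p.1 + t • q.1) ≠ 0 := by
    intro t ht i
    rw [map_add, map_smul, map_smul, smul_eq_mul, smul_eq_mul]
    by_cases hp : 0 < α i p.1
    · have hq := (hs i).1 hp
      rcases eq_or_lt_of_le ht.1 with h0 | h0
      · subst h0; simpa using hp.ne'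
      · have := mul_pos h0 hq
        have := mul_nonneg (sub_nonneg.2 ht.2) hp.le
        linarith
    · have hq : ¬ 0 < α i q.1 := fun h => hp ((hs i).2 h)
      have hp' : α i p.1 < 0 := lt_of_le_of_ne (not_lt.1 hp) (p.2 i)
      have hq' : α i q.1 < 0 := lt_of_le_of_ne (not_lt.1 hq) (q.2 i)
      rcases eq_or_lt_of_le ht.1 with h0 | h0
      · subst h0; simpa using hp'.ne
      · have := mul_neg_of_pos_of_neg h0 hq'
        have := mul_nonpos_of_nonneg_of_nonpos (sub_nonneg.2 ht.2) hp'.le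
        linarith
  let g : Set.Icc (0:ℝ) 1 → Compl α := fun t => ⟨(1 - t.1) • p.1 + t.1 • q.1, hseg t.1 t.2⟩
  have hg : Continuous g := by
    refine Continuous.subtype_mk ?_ _
    fun_prop
  have hpre : IsPreconnected (Set.range g) := isPreconnected_range hg
  have hp : p ∈ Set.range g := ⟨⟨0, by simp⟩, by apply Subtype.ext; simp [g]⟩
  have hq : q ∈ Set.range g := ⟨⟨1, by simp⟩, by apply Subtype.ext; simp [g]⟩
  exact hpre.subset_connectedComponent hq hp

lemma heav_eq (R : Type) [CommRing R] (i : Fin n) (C : Ch α) :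
    Heav α R i C = if sg α C i = true then 1 else 0 := by
  obtain ⟨p, rfl⟩ := ConnectedComponents.surjective_coe C
  unfold Heav
  rw [sg_mk]
  by_cases hp : 0 < α i p.1
  · rw [if_pos, if_pos]
    · simpa [sv] using hp
    · intro q hq
      have := congrFun (congrArg (sg α) hq) i
      rw [sg_mk, sg_mk] at this
      simpa [sv, hp] using this
  · rw [if_neg, if_neg]
    · simpa [sv] using hp
    · intro h; exact hp (h p rfl)

lemma fil_mul (R : Type) [CommRing R] (k : ℕ) (f g : Ch α → R) (hf : f ∈ Fil α R 1)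
    (hg : g ∈ Fil α R k) : f * g ∈ Fil α R (k + 1) := by
  have : Fil α R 1 * Fil α R k ≤ Fil α R (k + 1) := by
    unfold Fil
    rw [Submodule.span_mul_span]
    apply Submodule.span_mono
    rintro _ ⟨a, ⟨u, hu, rfl⟩, b, ⟨w, hw, rfl⟩, rfl⟩
    exact ⟨u ++ w, by simp; omega, by simp⟩
  exact this (Submodule.mul_mem_mul hf hg)

lemma fil_mono (R : Type) [CommRing R] {j k : ℕ} (h : j ≤ k) : Fil α R j ≤ Fil α R k := by
  apply Submodule.span_mono
  rintro _ ⟨u, hu, rfl⟩
  exact ⟨u, hu.trans h, rfl⟩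

lemma heav_mem (R : Type) [CommRing R] (i : Fin n) : Heav α R i ∈ Fil α R 1 :=
  Submodule.subset_span ⟨[i], by simp, by simp⟩

lemma map_le {n' l' : ℕ} (β : Fin n' → (Fin l' → ℝ) →ₗ[ℝ] ℝ) (R : Type) [CommRing R]
    (φ : (Ch α → R) ≃ₐ[R] (Ch β → R)) (h : ∀ i, φ (Heav α R i) ∈ Fil β R 1) (k : ℕ) :
    ∀ f ∈ Fil α R k, φ f ∈ Fil β R k := by
  have key : ∀ w : List (Fin n), φ (w.map (Heav α R)).prod ∈ Fil β R w.length := by
    intro w
    induction w with
    | nil => exact Submodule.subset_span ⟨[], by simp, by simp⟩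
    | cons a w ih =>
      rw [List.map_cons, List.prod_cons, map_mul]
      exact fil_mul β R _ _ _ (h a) ih
  intro f hf
  have : Fil α R k ≤ (Fil β R k).comap φ.toLinearMap := by
    unfold Fil
    rw [Submodule.span_le]
    rintro _ ⟨w, hw, rfl⟩
    exact fil_mono β R hw (key w)
  exact this hf

end general

noncomputable def pr (i : Fin 4) : (Fin 4 → ℝ) →ₗ[ℝ] ℝ := LinearMap.proj i

noncomputable def A : Fin 6 → (Fin 4 → ℝ) →ₗ[ℝ] ℝ :=
  ![pr 0, pr 1, pr 0 + pr 1, pr 2, pr 3, pr 2 + pr 3]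

noncomputable def B : Fin 6 → (Fin 4 → ℝ) →ₗ[ℝ] ℝ :=
  ![pr 0, pr 1, pr 0 + pr 1, pr 2, pr 3, pr 0 + pr 3]

def V (a b c : Bool) : Prop := a = b → c = a

def Φ (s : Fin 6 → Bool) : Fin 6 → Bool :=
  ![s 0, s 1, s 2, s 3, xor (s 4) (xor (s 3) (s 0)), xor (s 5) (xor (s 3) (s 0))]

lemma Φ_Φ (s : Fin 6 → Bool) : Φ (Φ s) = s := by
  funext i
  fin_cases i <;> simp [Φ]

lemma V_of (x y : ℝ) :
    V (decide (0 < x)) (decide (0 < y)) (decide (0 < x + y)) := by
  intro h
  have h' : 0 < x ↔ 0 < y := by simpa using h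
  by_cases h1 : 0 < x
  · have := h'.1 h1
    have : 0 < x + y := by linarith
    simp [h1, this]
  · have h2 : ¬ 0 < y := fun h => h1 (h'.2 h)
    have : ¬ 0 < x + y := by
      intro h3
      have := not_lt.1 h1
      have := not_lt.1 h2
      linarith
    simp [h1, this]

lemma V_real (x : ℝ) (hx : x ≠ 0) (b c : Bool) (h : V (decide (0 < x)) b c) :
    ∃ y : ℝ, y ≠ 0 ∧ x + y ≠ 0 ∧ decide (0 < y) = b ∧ decide (0 < x + y) = c := by
  rcases lt_or_gt_of_ne hx with h1 | h1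
  · have hd : decide (0 < x) = false := by simp [h1.le]
    rw [hd] at h
    cases b <;> cases c
    · refine ⟨x, hx, by linarith, by simp [h1.le], by simp [h1.le]⟩
    · exact absurd (h rfl) (by simp)
    · refine ⟨-x / 2, by linarith, by linarith, by simp; linarith, by simp; linarith⟩
    · refine ⟨-2 * x, by linarith, by linarith, by simp; linarith, by simp; linarith⟩
  · have hd : decide (0 < x) = true := by simp [h1]
    rw [hd] at h
    cases b <;> cases c
    · refine ⟨-2 * x, by linarith, by linarith, by simp; linarith, by simp; linarith⟩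
    · refine ⟨-x / 2, by linarith, by linarith, by simp; linarith, by simp; linarith⟩
    · exact absurd (h rfl) (by simp)
    · refine ⟨x, hx, by linarith, by simp [h1], by simp [h1]⟩

lemma ex_sign (a : Bool) : ∃ x : ℝ, x ≠ 0 ∧ decide (0 < x) = a := by
  cases a
  · exact ⟨-1, by norm_num, by simp⟩
  · exact ⟨1, by norm_num, by simp⟩

lemma rangeA (s : Fin 6 → Bool) :
    s ∈ Set.range (sg A) ↔ V (s 0) (s 1) (s 2) ∧ V (s 3) (s 4) (s 5) := by
  constructor
  · rintro ⟨C, rfl⟩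
    obtain ⟨p, rfl⟩ := ConnectedComponents.surjective_coe C
    rw [sg_mk]
    exact ⟨V_of (p.1 0) (p.1 1), V_of (p.1 2) (p.1 3)⟩
  · rintro ⟨h1, h2⟩
    obtain ⟨x, hx, ex⟩ := ex_sign (s 0)
    obtain ⟨z, hz, ez⟩ := ex_sign (s 3)
    obtain ⟨y, hy, hxy, ey, exy⟩ := V_real x hx (s 1) (s 2) (ex ▸ h1)
    obtain ⟨w, hw, hzw, ew, ezw⟩ := V_real z hz (s 4) (s 5) (ez ▸ h2)
    refine ⟨ConnectedComponents.mk (⟨![x, y, z, w], ?_⟩ : Compl A), ?_⟩
    · intro i
      fin_cases i <;> simpa [A, pr]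
    · rw [sg_mk]
      funext i
      fin_cases i
      exacts [ex, ey, exy, ez, ew, ezw]

lemma rangeB (s : Fin 6 → Bool) :
    s ∈ Set.range (sg B) ↔ V (s 0) (s 1) (s 2) ∧ V (s 0) (s 4) (s 5) := by
  constructor
  · rintro ⟨C, rfl⟩
    obtain ⟨p, rfl⟩ := ConnectedComponents.surjective_coe C
    rw [sg_mk]
    exact ⟨V_of (p.1 0) (p.1 1), V_of (p.1 0) (p.1 3)⟩
  · rintro ⟨h1, h2⟩
    obtain ⟨x, hx, ex⟩ := ex_sign (s 0)
    obtain ⟨z, hz, ez⟩ := ex_sign (s 3)
    obtain ⟨y, hy, hxy, ey, exy⟩ := V_real x hx (s 1) (s 2) (ex ▸ h1)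
    obtain ⟨w, hw, hzw, ew, ezw⟩ := V_real x hx (s 4) (s 5) (ex ▸ h2)
    refine ⟨ConnectedComponents.mk (⟨![x, y, z, w], ?_⟩ : Compl B), ?_⟩
    · intro i
      fin_cases i <;> simpa [B, pr]
    · rw [sg_mk]
      funext i
      fin_cases i
      exacts [ex, ey, exy, ez, ew, ezw]

lemma range_iff (s : Fin 6 → Bool) : s ∈ Set.range (sg A) ↔ Φ s ∈ Set.range (sg B) := by
  rw [rangeA, rangeB]
  simp only [Φ, V, Matrix.cons_val]
  cases s 0 <;> cases s 3 <;> cases s 4 <;> cases s 5 <;> simp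

def ΦE : (Fin 6 → Bool) ≃ (Fin 6 → Bool) := ⟨Φ, Φ, Φ_Φ, Φ_Φ⟩

noncomputable def E : Ch A ≃ Ch B :=
  (Equiv.ofInjective _ (sg_inj A)).trans
    ((ΦE.subtypeEquiv range_iff).trans (Equiv.ofInjective _ (sg_inj B)).symm)

lemma sg_E (C : Ch A) : sg B (E C) = Φ (sg A C) := by
  unfold E
  simp only [Equiv.trans_apply]
  rw [Equiv.apply_ofInjective_symm (sg_inj B)]
  rfl

lemma sg_E' (C : Ch B) : sg A (E.symm C) = Φ (sg B C) := by
  have := sg_E (E.symm C)
  rw [Equiv.apply_symm_apply] at this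
  rw [this, Φ_Φ]

noncomputable def φ (R : Type) [CommRing R] : (Ch A → R) ≃ₐ[R] (Ch B → R) where
  toFun f := fun C => f (E.symm C)
  invFun g := fun C => g (E C)
  left_inv f := by funext C; simp
  right_inv g := by funext C; simp
  map_mul' _ _ := rfl
  map_add' _ _ := rfl
  commutes' _ := rfl

lemma ind_xor (R : Type) [CommRing R] [CharP R 2] (a b c : Bool) :
    (if xor a (xor b c) = true then (1 : R) else 0) =
      (if a = true then 1 else 0) + (if b = true then 1 else 0) + (if c = true then 1 else 0) := by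
  have h : (1 : R) + 1 = 0 := CharTwo.add_self_eq_zero 1
  cases a <;> cases b <;> cases c <;> simp [h]

lemma pull {α β : Fin 6 → (Fin 4 → ℝ) →ₗ[ℝ] ℝ} (R : Type) [CommRing R] [CharP R 2]
    (e : Ch β → Ch α) (he : ∀ C, sg α (e C) = Φ (sg β C)) (i : Fin 6) :
    (fun C => Heav α R i (e C)) ∈ Fil β R 1 := by
  have h0 : ∀ j : Fin 6, (∀ s, Φ s j = s j) → (fun C => Heav α R j (e C)) ∈ Fil β R 1 := by
    intro j hj
    have : (fun C => Heav α R j (e C)) = Heav β R j := by
      funext C; rw [heav_eq, heav_eq, he, hj]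
    rw [this]; exact heav_mem β R j
  have h1 : ∀ j : Fin 6, (∀ s, Φ s j = xor (s j) (xor (s 3) (s 0))) →
      (fun C => Heav α R j (e C)) ∈ Fil β R 1 := by
    intro j hj
    have : (fun C => Heav α R j (e C)) = Heav β R j + Heav β R 3 + Heav β R 0 := by
      funext C
      simp only [Pi.add_apply]
      rw [heav_eq, heav_eq, heav_eq, heav_eq, he, hj, ind_xor]
    rw [this]
    exact add_mem (add_mem (heav_mem β R _) (heav_mem β R _)) (heav_mem β R _)
  fin_cases i
  exacts [h0 0 fun _ => rfl, h0 1 fun _ => rfl, h0 2 fun _ => rfl, h0 3 fun _ => rfl,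
    h1 4 fun _ => rfl, h1 5 fun _ => rfl]

theorem result (R : Type) [CommRing R] [IsDomain R] [CharP R 2] :
    ∃ α β : Fin 6 → (Fin 4 → ℝ) →ₗ[ℝ] ℝ,
      (∀ i, α i ≠ 0) ∧ (∀ i, β i ≠ 0) ∧
      Function.Injective (fun i => LinearMap.ker (α i)) ∧
      Function.Injective (fun i => LinearMap.ker (β i)) ∧
      (∃ ψ : (Ch α → R) ≃ₐ[R] (Ch β → R),
        ∀ k, (Fil α R k).map ψ.toLinearMap = Fil β R k) ∧
      ¬ ∃ (σ : Equiv.Perm (Fin 6)) (ε : Fin 6 → SignType), (∀ i, ε i ≠ 0) ∧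
        Cov β = (fun (X : Fin 6 → SignType) i => ε i * X (σ i)) '' Cov α := by
  refine ⟨A, B, ?_, ?_, ?_, ?_, ⟨φ R, fun k => le_antisymm ?_ ?_⟩, ?_⟩
  · intro i h
    have := LinearMap.congr_fun h (fun _ => 1)
    fin_cases i <;> simp [A, pr] at this
  · intro i h
    have := LinearMap.congr_fun h (fun _ => 1)
    fin_cases i <;> simp [B, pr] at this
  · intro i j h
    have h' : ∀ p, A i p = 0 ↔ A j p = 0 := fun p => by
      have := SetLike.ext_iff.1 h p
      simpa using this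
    have h0 := h' ![1, 0, 0, 0]
    have h1 := h' ![0, 1, 0, 0]
    have h2 := h' ![0, 0, 1, 0]
    have h3 := h' ![0, 0, 0, 1]
    fin_cases i <;> fin_cases j <;> simp [A, pr] at h0 h1 h2 h3 ⊢
  · intro i j h
    have h' : ∀ p, B i p = 0 ↔ B j p = 0 := fun p => by
      have := SetLike.ext_iff.1 h p
      simpa using this
    have h0 := h' ![1, 0, 0, 0]
    have h1 := h' ![0, 1, 0, 0]
    have h2 := h' ![0, 0, 1, 0]
    have h3 := h' ![0, 0, 0, 1]
    fin_cases i <;> fin_cases j <;> simp [B, pr] at h0 h1 h2 h3 ⊢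
  · rintro _ ⟨f, hf, rfl⟩
    exact map_le A B R (φ R) (pull R E.symm sg_E') k f hf
  · intro g hg
    refine ⟨(φ R).symm g, map_le B A R (φ R).symm (pull R E sg_E) k g hg, ?_⟩
    exact (φ R).apply_symm_apply g
  · rintro ⟨σ, ε, hε, h⟩
    have : (fun i => SignType.sign (B i ![0, 0, 1, 0])) ∈ Cov B := ⟨_, rfl⟩
    rw [h] at this
    obtain ⟨_, ⟨p, rfl⟩, hp⟩ := this
    have hz : ∀ i, A (σ i) p = 0 ↔ i ≠ 3 := by
      intro i
      have h1 := congrFun hp i
      have h2 : B i ![0, 0, 1, 0] = 0 ↔ i ≠ 3 := by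
        fin_cases i <;> simp [B, pr]
      rw [← h2, ← sign_eq_zero_iff, ← sign_eq_zero_iff (a := B i _), ← h1]
      simp [hε i]
    have hz' : ∀ j, A j p = 0 ↔ j ≠ σ 3 := by
      intro j
      have := hz (σ.symm j)
      rw [Equiv.apply_symm_apply] at this
      rw [this]
      constructor
      · intro h1 h2; apply h1; rw [h2]; simp
      · intro h1 h2; apply h1; rw [← h2]; simp
    have a0 := hz' 0
    have a1 := hz' 1
    have a2 := hz' 2
    have a3 := hz' 3
    have a4 := hz' 4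
    have a5 := hz' 5
    generalize σ 3 = t at a0 a1 a2 a3 a4 a5
    fin_cases t <;> simp [A, pr] at a0 a1 a2 a3 a4 a5 <;> simp_all

end Pool.Agent.Results.MP_157dc7_co.Cex
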